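import Mathlib

namespace Pool.Agent.Results.MP_052694_co.Half

/-- `g` is the nim-sequence of the subtraction game `S`: `g n` is the least natural number
that is not of the form `g (n - s)` with `s ∈ S`, `s ≤ n`. -/
def IsNim (S : Finset ℕ) (g : ℕ → ℕ) : Prop :=
  ∀ n, IsLeast {m | ¬ ∃ s ∈ S, s ≤ n ∧ g (n - s) = m} (g n)

/-- zero-indicator. -/
def V (g : ℕ → ℕ) (n : ℕ) : ℕ := if g n = 0 then 0 else 1

/-- `p` is the (ultimate) period of `a`. -/
def IsPeriod (a : ℕ → ℕ) (p : ℕ) : Prop :=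
  IsLeast {q | 1 ≤ q ∧ ∃ n₀, ∀ n ≥ n₀, a (n + q) = a n} p

def g0 (n : ℕ) : ℕ :=
  [0, 0, 1, 1, 2, 2, 3, 0, 4, 1, 3, 2, 4, 0, 0, 1, 1, 2, 2, 4, 0, 3, 1, 4, 2, 3].getD (n % 26) 0

def S0 : Finset ℕ := {2, 3, 5, 8, 9, 10}

lemma per (n k : ℕ) : g0 (n + 26 * k) = g0 n := by simp [g0]

lemma small : ∀ n < 36, (¬ ∃ s ∈ S0, s ≤ n ∧ g0 (n - s) = g0 n) ∧
    ∀ m < g0 n, ∃ s ∈ S0, s ≤ n ∧ g0 (n - s) = m := by decide +kernel

lemma nim0 : IsNim S0 g0 := by
  intro n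
  obtain ⟨r, k, hr, hk, rfl⟩ : ∃ r k, r < 36 ∧ (k = 0 ∨ 10 ≤ r) ∧ n = r + 26 * k := by
    by_cases h : n < 36
    · exact ⟨n, 0, h, Or.inl rfl, rfl⟩
    · exact ⟨(n - 10) % 26 + 10, (n - 10) / 26, by omega, Or.inr (by omega), by omega⟩
  have hS : ∀ s ∈ S0, s ≤ 10 := by decide
  have e : ∀ m, (∃ s ∈ S0, s ≤ r + 26 * k ∧ g0 (r + 26 * k - s) = m) ↔
      ∃ s ∈ S0, s ≤ r ∧ g0 (r - s) = m := fun m =>
    exists_congr fun s => and_congr_right fun hs => by
      have := hS s hs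
      rcases hk with rfl | hk
      · simp
      · rw [show r + 26 * k - s = r - s + 26 * k by omega, per]
        exact and_congr_left' (by omega)
  simp only [e, per]
  exact ⟨(small r hr).1, fun m hm => not_lt.1 fun h => hm ((small r hr).2 m h)⟩

lemma uniq (g : ℕ → ℕ) (h : IsNim S0 g) (n : ℕ) : g n = g0 n := by
  induction n using Nat.strong_induction_on with
  | _ n ih =>
    have hS : ∀ s ∈ S0, 0 < s := by decide
    refine (h n).unique ?_
    have e : ∀ m, (∃ s ∈ S0, s ≤ n ∧ g (n - s) = m) ↔ ∃ s ∈ S0, s ≤ n ∧ g0 (n - s) = m :=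
      fun m => exists_congr fun s => and_congr_right fun hs => and_congr_right fun hn => by
        have := hS s hs
        rw [ih (n - s) (by omega)]
    simp only [e]
    exact nim0 n

lemma least (a : ℕ → ℕ) (p : ℕ) (hp : 1 ≤ p) (h26 : ∀ n k, a (n + 26 * k) = a n)
    (h1 : ∀ n < 26, a (n + p) = a n) (h2 : ∀ q < p, 1 ≤ q → ∃ n < 26, a (n + q) ≠ a n) :
    IsPeriod a p := by
  refine ⟨⟨hp, 0, fun n _ => ?_⟩, fun q ⟨hq, n₀, hn⟩ => not_lt.1 fun hlt => ?_⟩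
  · have := h1 (n % 26) (Nat.mod_lt _ (by norm_num))
    rw [← h26 (n % 26 + p) (n / 26), ← h26 (n % 26) (n / 26)] at this
    rwa [show n % 26 + p + 26 * (n / 26) = n + p by omega, Nat.mod_add_div] at this
  · obtain ⟨n, -, h⟩ := h2 q hlt hq
    have := hn (n + 26 * n₀) (by omega)
    rw [add_right_comm, h26, h26] at this
    exact h this

theorem result : ∃ S : Finset ℕ, S.Nonempty ∧ (∀ s ∈ S, 0 < s) ∧ (∃ g, IsNim S g) ∧
    ∀ g, IsNim S g → IsPeriod g 26 ∧ IsPeriod (V g) 13 := by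
  refine ⟨S0, by decide, by decide, ⟨g0, nim0⟩, fun g hg => ?_⟩
  obtain rfl : g = g0 := funext (uniq g hg)
  exact ⟨least _ _ (by norm_num) per (by decide +kernel) (by decide +kernel),
    least _ _ (by norm_num) (fun n k => by simp only [V, per]) (by decide +kernel)
      (by decide +kernel)⟩

end Pool.Agent.Results.MP_052694_co.Half
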